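import Mathlib

/-
A cocycle with values in `ZMod 2` on triples of mutually tangent circles, from a valuation.
-/

set_option autoImplicit false

namespace Pool.Agent.MP_3b6db3_gt.H5U

/-- two by two matrices, as quadruples. -/
structure M4 where
  (a b g d : ℂ)

/-- the polar form of the determinant. -/
def bil (M N : M4) : ℂ := M.a * N.d + N.a * M.d - M.b * N.g - N.b * M.g

theorem bil_comm (M N : M4) : bil M N = bil N M := by unfold bil; ring

/-- tangent circles. -/
structure Tg (M N : M4) : Prop where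
  hx : bil M M = -2
  hy : bil N N = -2
  eq : bil M N = 2
  ne : ¬ (M.a + N.a = 0 ∧ M.b + N.b = 0 ∧ M.g + N.g = 0 ∧ M.d + N.d = 0)

theorem Tg.symm {M N : M4} (h : Tg M N) : Tg N M :=
  ⟨h.hy, h.hx, by rw [bil_comm, h.eq], by simpa only [add_comm] using h.ne⟩

/-- a factorisation of the half sum. -/
structure Fac (M N : M4) (x x' y y' : ℂ) : Prop where
  a : M.a + N.a = 2 * (x * y)
  b : M.b + N.b = 2 * (x * y')
  g : M.g + N.g = 2 * (x' * y)
  d : M.d + N.d = 2 * (x' * y')
  nx : ¬ (x = 0 ∧ x' = 0)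
  ny : ¬ (y = 0 ∧ y' = 0)

theorem Fac.symm {M N : M4} {x x' y y' : ℂ} (h : Fac M N x x' y y') : Fac N M x x' y y' :=
  ⟨by rw [add_comm, h.a], by rw [add_comm, h.b], by rw [add_comm, h.g], by rw [add_comm, h.d],
    h.nx, h.ny⟩

theorem Tg.fac {M N : M4} (h : Tg M N) : ∃ x x' y y', Fac M N x x' y y' := by
  have e : (M.a + N.a) * (M.d + N.d) = (M.b + N.b) * (M.g + N.g) := by
    have e1 := h.hx
    have e2 := h.hy
    have e3 := h.eq
    unfold bil at e1 e2 e3
    linear_combination e3 + (1 / 2) * e1 + (1 / 2) * e2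
  have n := h.ne
  by_cases ha : M.a + N.a = 0
  · by_cases hb : M.b + N.b = 0
    · exact ⟨0, 1 / 2, M.g + N.g, M.d + N.d, by simp [ha], by simp [hb], by ring, by ring, by simp,
        fun c => n ⟨ha, hb, c⟩⟩
    · have hg : M.g + N.g = 0 := by simpa [ha, hb] using e
      exact ⟨M.b + N.b, M.d + N.d, 0, 1 / 2, by simp [ha], by ring, by simp [hg], by ring,
        fun c => hb c.1, by simp⟩
  · refine ⟨1 / 2, (M.g + N.g) / (M.a + N.a) / 2, M.a + N.a, M.b + N.b, by ring, by ring,
      by field_simp, ?_, by simp, fun c => ha c.1⟩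
    field_simp
    linear_combination e

variable {Γ : Type} [LinearOrderedCommGroupWithZero Γ] (v : Valuation ℂ Γ)

/-- the order of the integral matrices whose last entry is small. -/
def InJ (a b g d : ℂ) : Prop := v a ≤ 1 ∧ v b ≤ 1 ∧ v g ≤ 1 ∧ v d < 1

/-- active circles. -/
def Act (M : M4) : Prop := InJ v (M.a / 2) ((M.b - 1) / 2) ((M.g - 1) / 2) (M.d / 2)

/-- the side of the contact point. -/
def Eps (M N : M4) : Prop := v (M.g + N.g) < v (M.a + N.a) ∨ v (M.d + N.d) < v (M.b + N.b)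

theorem v_two : v 2 ≤ 1 := by
  rw [← one_add_one_eq_two]
  exact v.map_add_le v.map_one.le v.map_one.le

variable {v}

theorem eps_comm (M N : M4) : Eps v M N ↔ Eps v N M := by simp only [Eps, add_comm]

theorem le_mul1 {x y : ℂ} (hx : v x ≤ 1) (hy : v y ≤ 1) : v (x * y) ≤ 1 := by
  rw [map_mul]; exact mul_le_one' hx hy

theorem lt_mul1 {x y : ℂ} (hx : v x ≤ 1) (hy : v y < 1) : v (x * y) < 1 := by
  rw [map_mul]; exact mul_lt_one_of_nonneg_of_lt_one_right hx zero_le hy

theorem vpos {x : ℂ} (h : x ≠ 0) : 0 < v x := (v.pos_iff).2 h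

theorem ltle {a b c d : Γ} (h : a < b) (h' : c ≤ d) (h0 : 0 < d) : a * c < b * d :=
  mul_lt_mul_of_lt_of_le_of_nonneg_of_pos h h' zero_le h0

theorem Fac.eps {M N : M4} {x x' y y' : ℂ} (h : Fac M N x x' y y') : Eps v M N ↔ v x' < v x := by
  have e : ∀ z : ℂ, v (2 * (x' * z)) < v (2 * (x * z)) ↔ z ≠ 0 ∧ v x' < v x := fun z => by
    by_cases hz : z = 0
    · simp [hz]
    · simp only [map_mul, mul_lt_mul_iff_right₀ (vpos (v := v) two_ne_zero),
        mul_lt_mul_iff_left₀ (vpos (v := v) hz), ne_eq, hz, not_false_eq_true, true_and]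
  rw [Eps, h.a, h.b, h.g, h.d, e, e]
  have := h.ny
  tauto

theorem Act.int {M : M4} (h : Act v M) : InJ v M.a M.b M.g M.d := by
  obtain ⟨h1, h2, h3, h4⟩ := h
  refine ⟨?_, ?_, ?_, ?_⟩
  · convert le_mul1 (v_two v) h1 using 2; ring
  · convert v.map_add_le (le_mul1 (v_two v) h2) v.map_one.le using 2; ring
  · convert v.map_add_le (le_mul1 (v_two v) h3) v.map_one.le using 2; ring
  · convert lt_mul1 (v_two v) h4 using 2; ring

/-- top and bottom position of a point on an active circle. -/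
theorem Act.bottom {M N : M4} (h : Act v M) (t : Tg M N) {x x' y y' : ℂ}
    (f : Fac M N x x' y y') : v x' < v x ↔ v y' < v y := by
  obtain ⟨ha, hb, hg, hd⟩ := h.int
  have det : M.b * M.g = 1 + M.a * M.d := by
    have := t.hx
    unfold bil at this
    linear_combination (-1 / 2) * this
  have rel : x' * (M.a * y' - M.b * y) = x * (M.g * y' - M.d * y) := by
    have e1 := t.hx
    have e2 := t.eq
    unfold bil at e1 e2
    linear_combination (1 / 2) * (e1 + e2 - M.a * f.d - M.d * f.a + M.b * f.g + M.g * f.b)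
  have hbg : v M.b * v M.g = 1 := by
    rw [← map_mul, det]; exact v.map_one_add_of_lt (lt_mul1 ha hd)
  have b1 : v M.b = 1 := le_antisymm hb (hbg.ge.trans (mul_le_of_le_one_right' hg))
  have g1 : v M.g = 1 := by rwa [b1, one_mul] at hbg
  have r := congrArg v rel
  rw [map_mul, map_mul] at r
  constructor
  · intro ht
    by_contra hs
    rw [not_lt] at hs
    have y0 : 0 < v y' := vpos fun c => f.ny ⟨by simpa [c] using hs, c⟩
    have e2 : v (M.a * y' - M.b * y) ≤ v y' :=
      v.map_sub_le (by rw [map_mul]; exact mul_le_of_le_one_left' ha)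
        (by rwa [map_mul, b1, one_mul])
    rw [v.map_sub_eq_of_lt_left (x := M.g * y') (by
      rw [map_mul, map_mul, g1]; exact ltle hd hs y0), map_mul,
      g1, one_mul] at r
    exact absurd (r.ge.trans (mul_le_mul_right e2 _)) (not_le.2 (mul_lt_mul_of_pos_right ht y0))
  · intro hs
    have y0 : 0 < v y := zero_le.trans_lt hs
    have e1 : v (M.g * y' - M.d * y) < v y :=
      v.map_sub_lt (by rwa [map_mul, g1, one_mul])
        (by rw [map_mul]; exact mul_lt_of_lt_one_left y0 hd)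
    rw [v.map_sub_eq_of_lt_right (y := M.b * y) (by
      rw [map_mul, map_mul, b1, one_mul]; exact (mul_le_of_le_one_left' ha).trans_lt hs), map_mul,
      b1, one_mul] at r
    have x0 : 0 < v x := vpos fun c => f.nx ⟨c, by simpa [c, y0.ne'] using r⟩
    exact lt_of_mul_lt_mul_right (r.le.trans_lt (mul_lt_mul_of_pos_left e1 x0)) zero_le

theorem key {x x' y y' z z' w w' : ℂ} (e : (x * z' - x' * z) * (y * w' - y' * w) = 1)
    (h1 : v x' < v x) (h2 : v y' < v y) (h3 : v z ≤ v z') (h4 : v w ≤ v w') :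
    InJ v (x * y) (x * y') (x' * y) (x' * y') ∨ InJ v (z * w) (z * w') (z' * w) (z' * w') := by
  have z0 : 0 < v z' := vpos fun c => by
    have : z = 0 := by simpa [c] using h3
    simp [c, this] at e
  have w0 : 0 < v w' := vpos fun c => by
    have : w = 0 := by simpa [c] using h4
    simp [c, this] at e
  have e1 : v x * v y * (v z' * v w') = 1 := by
    have := congrArg v e
    rw [map_mul, v.map_sub_eq_of_lt_left (by
      rw [map_mul, map_mul]; exact ltle h1 h3 z0),
      v.map_sub_eq_of_lt_left (by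
      rw [map_mul, map_mul]; exact ltle h2 h4 w0), map_one,
      map_mul, map_mul] at this
    rw [← this]
    ac_rfl
  simp only [InJ, map_mul]
  by_cases hk : v x * v y ≤ 1
  · exact Or.inl ⟨hk, (mul_le_mul_right h2.le _).trans hk, (mul_le_mul_left h1.le _).trans hk,
      (mul_lt_mul'' h1 h2 zero_le zero_le).trans_le hk⟩
  · have k2 : v z' * v w' < 1 := by
      by_contra hc
      exact absurd e1 (one_lt_mul_of_lt_of_le' (not_le.1 hk) (not_lt.1 hc)).ne'
    exact Or.inr ⟨(mul_le_mul' h3 h4).trans k2.le, (mul_le_mul_left h3 _).trans k2.le,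
      (mul_le_mul_right h4 _).trans k2.le, k2⟩

theorem Act.pass {M N : M4} (h : Act v M) {x x' y y' : ℂ} (f : Fac M N x x' y y')
    (s : InJ v (x * y) (x * y') (x' * y) (x' * y')) : Act v N := by
  obtain ⟨h1, h2, h3, h4⟩ := h
  obtain ⟨s1, s2, s3, s4⟩ := s
  refine ⟨?_, ?_, ?_, ?_⟩
  · convert v.map_sub_le s1 h1 using 2
    linear_combination (1 / 2) * f.a
  · convert v.map_sub_le (v.map_sub_le s2 h2) v.map_one.le using 2
    linear_combination (1 / 2) * f.b
  · convert v.map_sub_le (v.map_sub_le s3 h3) v.map_one.le using 2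
    linear_combination (1 / 2) * f.g
  · convert v.map_sub_lt s4 h4 using 2
    linear_combination (1 / 2) * f.d

theorem pair {X Y Z : M4} (h1 : Tg X Y) (h2 : Tg X Z) (h3 : Tg Y Z)
    (a1 : Act v X ∨ Act v Y) (a2 : Act v X ∨ Act v Z) (e1 : Eps v X Y)
    (e2 : ¬ Eps v X Z) : (Act v X ∧ Act v Y) ∨ (Act v X ∧ Act v Z) := by
  obtain ⟨x, x', y, y', f⟩ := h1.fac
  obtain ⟨z, z', w, w', g⟩ := h2.fac
  rw [f.eps] at e1
  rw [g.eps] at e2
  have e : (x * z' - x' * z) * (y * w' - y' * w) = 1 := by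
    have i1 := h1.hx
    have i2 := h1.eq
    have i3 := h2.eq
    have i4 := h3.eq
    unfold bil at i1 i2 i3 i4
    linear_combination (1 / 4) * (i1 + i2 + i3 + i4 - (X.d + Z.d) * f.a - 2 * (x * y) * g.d -
      (X.a + Z.a) * f.d - 2 * (x' * y') * g.a + (X.g + Z.g) * f.b + 2 * (x * y') * g.g +
      (X.b + Z.b) * f.g + 2 * (x' * y) * g.b)
  refine (key e e1 ((a1.elim (·.bottom h1 f) (·.bottom h1.symm f.symm)).1 e1) (not_lt.1 e2)
    (not_lt.1 fun h => e2 ((a2.elim (·.bottom h2 g) (·.bottom h2.symm g.symm)).2 h))).imp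
    (fun s => ?_) fun s => ?_
  · exact a1.elim (fun a => ⟨a, a.pass f s⟩) fun a => ⟨a.pass f.symm s, a⟩
  · exact a2.elim (fun a => ⟨a, a.pass g s⟩) fun a => ⟨a.pass g.symm s, a⟩

open Classical in
/-- the indicator of a proposition. -/
noncomputable def ind (p : Prop) : ZMod 2 := if p then 1 else 0

theorem ind_pos {p : Prop} (h : p) : ind p = 1 := if_pos h

theorem ind_neg {p : Prop} (h : ¬ p) : ind p = 0 := if_neg h

/-- the cocycle. -/
noncomputable def om (v : Valuation ℂ Γ) (X Y : M4) : ZMod 2 :=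
  ind (Eps v X Y) * (ind (Act v X) + ind (Act v Y))

theorem om_comm (X Y : M4) : om v X Y = om v Y X := by
  unfold om
  rw [eps_comm, add_comm]

theorem om_tri {X Y Z : M4} (h1 : Tg X Y) (h2 : Tg X Z) (h3 : Tg Y Z) :
    om v X Y + om v X Z + om v Y Z = 0 := by
  have p1 := @pair _ _ v _ _ _ h1 h2 h3
  have p2 := @pair _ _ v _ _ _ h2 h1 h3.symm
  have p3 := @pair _ _ v _ _ _ h1.symm h3 h2
  have p4 := @pair _ _ v _ _ _ h3 h1.symm h2.symm
  have p5 := @pair _ _ v _ _ _ h2.symm h3.symm h1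
  have p6 := @pair _ _ v _ _ _ h3.symm h2.symm h1.symm
  rw [eps_comm Y X] at p3 p4
  rw [eps_comm Z X, eps_comm Z Y] at p5 p6
  unfold om
  generalize Act v X = a, Act v Y = b, Act v Z = c at *
  generalize Eps v X Y = d, Eps v X Z = e, Eps v Y Z = f at *
  by_cases a <;> by_cases b <;> by_cases c <;> by_cases d <;> by_cases e <;> by_cases f <;>
    simp_all [ind] <;> rfl

theorem exists_val {x : ℂ} (h : ¬ IsIntegral ℤ x) : ∃ O : ValuationSubring ℂ, x ∉ O := by
  have : IsIntegrallyClosedIn (integralClosure ℤ ℂ).toSubring ℂ :=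
    inferInstanceAs (IsIntegrallyClosedIn (integralClosure ℤ ℂ) ℂ)
  obtain ⟨O, -, hO⟩ :=
    (integralClosure ℤ ℂ).toSubring.exists_le_valuationSubring_of_isIntegrallyClosedIn (x := x) h
  exact ⟨O, hO⟩

end Pool.Agent.MP_3b6db3_gt.H5U
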