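import Pool.Agent.MP_3b6db3_gt.H5U.Horn

/-
The horns of a gap on a circle are even in number.
-/

set_option autoImplicit false

namespace Pool.Agent.MP_3b6db3_gt.H5U

open Set Metric Filter Topology Complex ComplexConjugate

theorem flat {f : ℝ → ZMod 2} {a b : ℝ} (h : a ≤ b) (h0 : ∀ x ∈ Icc a b, ∀ᶠ y in 𝓝 x, f y = f x) :
    f a = f b :=
  isPreconnected_Icc.constant (fun x hx =>
    (continuousAt_const.congr (EventuallyEq.symm (h0 x hx))).continuousWithinAt)
    (left_mem_Icc.2 h) (right_mem_Icc.2 h)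

theorem jump {κ : Type} [DecidableEq κ] (θ : κ → ℝ) (f : ℝ → ZMod 2) (L Rt : κ → ZMod 2) (a : ℝ)
    (N : Finset κ) : ∀ b, a ≤ b → InjOn θ N → (∀ q ∈ N, θ q ∈ Ioo a b) →
    (∀ x ∈ Icc a b, (∀ q ∈ N, θ q ≠ x) → ∀ᶠ y in 𝓝 x, f y = f x) →
    (∀ q ∈ N, ∀ᶠ y in 𝓝[<] θ q, f y = L q) → (∀ q ∈ N, ∀ᶠ y in 𝓝[>] θ q, f y = Rt q) →
    f b - f a = ∑ q ∈ N, (Rt q - L q) := by
  induction N using Finset.induction_on_max_value θ with
  | empty => exact fun b h _ _ h0 _ _ => by simp [flat h fun x hx => h0 x hx (by simp)]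
  | insert q s hq hm ih =>
    intro b _ inj hI h0 hl hr
    have m := Finset.mem_insert_self q s
    have lt : ∀ x ∈ s, θ x < θ q := fun x hx => (hm x hx).lt_of_ne fun e =>
      hq (inj (Finset.mem_insert_of_mem hx) m e ▸ hx)
    obtain ⟨c, c1, c2, c3, c4⟩ := ((hl q m).and (eventually_mem_nhdsWithin.and
      (Eventually.filter_mono nhdsWithin_le_nhds ((lt_mem_nhds (hI q m).1).and
        ((s.eventually_all).2 fun x hx => lt_mem_nhds (lt x hx)))))).exists
    obtain ⟨d, d1, d2, d3⟩ := ((hr q m).and (eventually_mem_nhdsWithin.and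
      (Eventually.filter_mono nhdsWithin_le_nhds (gt_mem_nhds (hI q m).2)))).exists
    rw [mem_Iio] at c2
    rw [mem_Ioi] at d2
    have e1 := ih c c3.le (inj.mono (by simp)) (fun x hx =>
      ⟨(hI x (Finset.mem_insert_of_mem hx)).1, c4 x hx⟩)
      (fun x hx h => h0 x ⟨hx.1, by linarith [hx.2]⟩ (Finset.forall_mem_insert _ _ _ |>.2
        ⟨by linarith [hx.2] |> ne_of_gt, h⟩))
      (fun x hx => hl x (Finset.mem_insert_of_mem hx))
      (fun x hx => hr x (Finset.mem_insert_of_mem hx))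
    have e2 := flat d3.le fun x hx => h0 x ⟨by linarith [hx.1], hx.2⟩
      (Finset.forall_mem_insert _ _ _ |>.2 ⟨by linarith [hx.1] |> ne_of_lt,
        fun y hy => by linarith [hx.1, lt y hy] |> ne_of_lt⟩)
    rw [Finset.sum_insert hq, ← e1, ← e2, c1, d1]
    ring

variable {ι : Type} {C : ι → ℂ} {R : ι → ℝ}

theorem ind_gap {F : Set ℂ} {g g' : ℂ} {l : Filter ℝ} [l.NeBot] {x : ℝ → ℂ}
    (h : ∀ᶠ s in l, x s ∈ connectedComponentIn F g) :
    ind (∀ᶠ s in l, x s ∈ connectedComponentIn F g') =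
      ind (connectedComponentIn F g = connectedComponentIn F g') := by
  congr 1
  refine propext ⟨fun h' => ?_, fun e => e ▸ h⟩
  obtain ⟨s, h1, h2⟩ := (h.and h').exists
  rw [connectedComponentIn_eq h1, connectedComponentIn_eq h2]

theorem Pk.finN (H : Pk C R) (p : ι) : {q | Tn C R p q}.Finite :=
  (H.fin (C p) (R p)).subset fun q hq => by
    have := hq.2
    rw [dist_comm] at this
    simp [this, add_comm]

theorem Pk.bal (H : Pk C R) (p : ι) (g : ℂ) :
    ∑ q ∈ (H.finN p).toFinset, (ind (H.gp p q = connectedComponentIn (U C R) g) -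
      ind (H.gp q p = connectedComponentIn (U C R) g)) = 0 := by
  classical
  have hp := H.pos p
  have pi := Real.pi_pos
  obtain ⟨φ, φ1, φ2⟩ := (Ioo_infinite (neg_lt_self pi)).exists_notMem_finset
    ((H.finN p).toFinset.image fun q => arg (-dr C R p q))
  set w := exp (φ * I) with hw
  have w1 : ‖w‖ = 1 := norm_exp_ofReal_mul_I φ
  have w0 : conj w * w = 1 := by rw [conj_mul', w1]; simp
  set Φ : ℝ × ℝ → ℂ := fun z => C p + z.2 * (w * exp (z.1 * I)) with hΦ
  have cΦ : Continuous Φ := by fun_prop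
  have nΦ : ∀ z : ℝ × ℝ, 0 ≤ z.2 → dist (Φ z) (C p) = z.2 := fun z hz => by
    simp [hΦ, w1, abs_of_nonneg hz]
  have oΦ : ∀ z : ℝ × ℝ, R p < z.2 → Φ z ∉ closedBall (C p) (R p) := fun z hz => by
    rw [mem_closedBall, nΦ z (hp.le.trans hz.le)]; exact not_le.2 hz
  have iΦ : ∀ x : ℝ, Φ (x, R p) ∈ closedBall (C p) (R p) := fun x => (nΦ (x, R p) hp.le).le
  set θ : ι → ℝ := fun q => arg (dr C R p q * conj w) with hθ
  have eθ : ∀ q, Tn C R p q → dr C R p q = w * exp (θ q * I) := fun q h => by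
    have := norm_mul_exp_arg_mul_I (dr C R p q * conj w)
    rw [norm_mul, H.norm_dr h, norm_conj, w1] at this
    simp only [mul_one, ofReal_one, one_mul] at this
    rw [this]
    linear_combination (-dr C R p q) * w0
  have tΦ : ∀ q, Tn C R p q → Φ (θ q, R p) = pt C R p q := fun q h => by rw [pt, eθ q h]
  have hI : ∀ q, Tn C R p q → θ q ∈ Ioo (-Real.pi) Real.pi := fun q h =>
    ⟨neg_pi_lt_arg _, (arg_le_pi _).lt_of_ne fun e => φ2 (Finset.mem_image.2 ⟨q, by simpa, by
      rw [eθ q h, show θ q = Real.pi from e, exp_pi_mul_I, mul_neg_one, neg_neg, hw,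
        arg_exp_mul_I, toIocMod_eq_self]
      exact ⟨φ1.1, by linarith [φ1.2]⟩⟩)⟩
  have im : ∀ q, Tn C R p q → ∀ x s : ℝ, ((Φ (x, s) - pt C R p q) * conj (dr C R p q)).im =
      s * Real.sin (x - θ q) := fun q h x s => by
    have e : (Φ (x, s) - pt C R p q) * conj (dr C R p q) =
        s * exp ((x - θ q : ℝ) * I) - R p := by
      have e1 : exp (x * I) = exp ((x - θ q : ℝ) * I) * exp (θ q * I) := by
        rw [← exp_add]; congr 1; push_cast; ring
      have e2 : dr C R p q * conj (dr C R p q) = 1 := by rw [mul_conj', H.norm_dr h]; simp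
      have e3 := eθ q h
      simp only [hΦ, pt, e1]
      linear_combination (s * exp ((x - θ q : ℝ) * I) - R p) * e2 -
        s * exp ((x - θ q : ℝ) * I) * conj (dr C R p q) * e3
    rw [e, sub_im, im_ofReal_mul, exp_ofReal_mul_I_im, ofReal_im, sub_zero]
  have side : ∀ q, Tn C R p q → ∀ (G : Set ℂ) (ε : ℝ), (∀ᶠ x in 𝓝 (pt C R p q),
      x ∉ closedBall (C p) (R p) → x ∉ closedBall (C q) (R q) →
      0 < ε * ((x - pt C R p q) * conj (dr C R p q)).im → x ∈ G) →
      ∀ᶠ x in 𝓝 (θ q), 0 < ε * Real.sin (x - θ q) → ∀ᶠ s in 𝓝[>] R p, Φ (x, s) ∈ G := by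
    intro q h G ε hG
    have := (cΦ.tendsto' _ _ (tΦ q h)).eventually hG
    filter_upwards [this.curry_nhds] with x hx hs
    have n : Φ (x, R p) ∉ closedBall (C q) (R q) := fun c => by
      have := im q h x (R p)
      rw [(H.touch h.1 (iΦ x) c).2] at this
      have : Real.sin (x - θ q) = 0 := by simpa [hp.ne'] using this
      simp [this] at hs
    have n' := ((cΦ.comp (Continuous.prodMk_right x)).tendsto (R p)).eventually
      (isClosed_closedBall.isOpen_compl.mem_nhds n)
    filter_upwards [nhdsWithin_le_nhds hx, nhdsWithin_le_nhds n', self_mem_nhdsWithin]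
      with s s1 s2 (s3 : R p < s)
    refine s1 (oΦ _ s3) s2 ?_
    rw [im q h, mul_left_comm]
    exact mul_pos (hp.trans s3) hs
  have key := jump θ (fun x => ind (∀ᶠ s in 𝓝[>] R p, Φ (x, s) ∈ connectedComponentIn (U C R) g))
    (fun q => ind (H.gp q p = connectedComponentIn (U C R) g))
    (fun q => ind (H.gp p q = connectedComponentIn (U C R) g)) (-Real.pi) (H.finN p).toFinset
    Real.pi (by linarith) ?_ (fun q hq => hI q (by simpa using hq)) ?_ ?_ ?_
  · rw [← key]
    simp [hΦ, exp_neg]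
  · intro q hq q' hq' e
    replace hq : Tn C R p q := by simpa using hq
    replace hq' : Tn C R p q' := by simpa using hq'
    have m := H.pt_mem hq'.symm
    rw [H.pt_swap, ← tΦ q' hq', ← e, tΦ q hq] at m
    exact ((H.two hq.1 (H.pt_mem hq) (H.pt_swap p q ▸ H.pt_mem hq.symm) m).resolve_left
      hq'.1.symm).symm
  · intro x hx hn
    have n : ∀ k, k ≠ p → Φ (x, R p) ∉ closedBall (C k) (R k) := fun k hk c => by
      obtain ⟨h, e⟩ := H.touch hk.symm (iΦ x) c
      have e1 := im k h x (R p)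
      rw [e] at e1
      have e2 : exp (x * I) = exp (θ k * I) := by
        rw [← tΦ k h] at e
        simpa [hΦ, hp.ne', hw] using e
      have := hI k h
      obtain ⟨n, hn'⟩ := exp_eq_exp_iff_exists_int.1 e2
      have e3 : x = θ k + n * (2 * Real.pi) := by simpa using congrArg Complex.im hn'
      have : n = 0 := by
        have a1 : (n : ℝ) < 1 := by nlinarith [hx.2, this.1]
        have a2 : (-1 : ℝ) < n := by nlinarith [hx.1, this.2]
        have : n < 1 := by exact_mod_cast a1
        have : -1 < n := by exact_mod_cast a2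
        omega
      exact hn k (by simpa) (by simp [e3, this])
    obtain ⟨η, η0, hη⟩ := Metric.eventually_nhds_iff.1 ((cΦ.tendsto (x, R p)).eventually
      (H.away (Φ (x, R p))))
    have sub : Φ '' (ball x η ×ˢ Ioo (R p) (R p + η)) ⊆ U C R := by
      rintro _ ⟨z, ⟨z1, z2⟩, rfl⟩
      refine mem_U.2 fun k => ?_
      by_cases hk : k = p
      · exact hk ▸ oΦ z z2.1
      · refine hη (max_lt z1 ?_) k (n k hk)
        rw [Real.dist_eq, abs_lt]
        constructor <;> linarith [z2.1, z2.2]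
    have pc := (((convex_ball x η).isPreconnected.prod isPreconnected_Ioo).image Φ
      cΦ.continuousOn).subset_connectedComponentIn (mem_image_of_mem Φ
        (show (x, R p + η / 2) ∈ _ from ⟨mem_ball_self η0, by constructor <;> linarith⟩)) sub
    have ev : ∀ y ∈ ball x η, ∀ᶠ s in 𝓝[>] R p, Φ (y, s) ∈ _ := fun y hy => by
      filter_upwards [Ioo_mem_nhdsGT (lt_add_of_pos_right (R p) η0)] with s hs
      exact pc (mem_image_of_mem Φ ⟨hy, hs⟩)
    filter_upwards [ball_mem_nhds x η0] with y hy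
    rw [ind_gap (ev y hy), ind_gap (ev x (mem_ball_self η0))]
  · intro q hq
    replace hq : Tn C R p q := by simpa using hq
    have := side q hq (H.gp q p) (-1) (by
      filter_upwards [H.pt_swap p q ▸ H.gp_ev hq.symm] with x hx x1 x2 x3
      refine hx x2 x1 ?_
      rw [dr_swap]
      simpa using x3)
    filter_upwards [nhdsWithin_le_nhds this, Ioo_mem_nhdsLT (sub_lt_self (θ q) pi)] with x hx x1
    refine ind_gap (hx ?_)
    have := Real.sin_neg_of_neg_of_neg_pi_lt (x := x - θ q) (by linarith [x1.2])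
      (by linarith [x1.1])
    linarith
  · intro q hq
    replace hq : Tn C R p q := by simpa using hq
    have := side q hq (H.gp p q) 1 (by simpa only [one_mul] using H.gp_ev hq)
    filter_upwards [nhdsWithin_le_nhds this, Ioo_mem_nhdsGT (lt_add_of_pos_right (θ q) pi)]
      with x hx x1
    refine ind_gap (hx ?_)
    have := Real.sin_pos_of_pos_of_lt_pi (x := x - θ q) (by linarith [x1.1]) (by linarith [x1.2])
    linarith

end Pool.Agent.MP_3b6db3_gt.H5U
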