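import Pool.Agent.MP_3b6db3_gt.H5U.Main

/-
Rhombi of equal discs, and periodic packings.
-/

set_option autoImplicit false

namespace Pool.Agent.MP_3b6db3_gt.H5U

open Set Metric Complex ComplexConjugate

variable {ι : Type} {C : ι → ℂ} {R : ι → ℝ}

theorem Pk.tn (H : Pk C R) {p q : ι} (h : dist (C p) (C q) = R p + R q) : Tn C R p q :=
  ⟨fun c => by
    subst c
    have := H.pos p
    rw [dist_self] at h
    linarith, h⟩

theorem mem_of {O : ValuationSubring ℂ} {ζ : ℂ} (h : ζ + ζ⁻¹ ∈ O) : ζ ∈ O :=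
  (O.mem_or_inv_mem ζ).elim id fun k => by simpa using O.toSubring.sub_mem h k

theorem Pk.rhombus (H : Pk C R) {p₁ p₂ p₃ p₄ : ι} {ρ : ℝ} {z u w : ℂ} (r1 : R p₁ = ρ)
    (r2 : R p₂ = ρ) (r3 : R p₃ = ρ) (r4 : R p₄ = ρ) (c1 : C p₁ = z) (c2 : C p₂ = z + u)
    (c3 : C p₃ = z + u + w) (c4 : C p₄ = z + w) (hu : ‖u‖ = 2 * ρ) (hw : ‖w‖ = 2 * ρ) :
    IsIntegral ℤ (w / u) := by
  by_contra hc
  obtain ⟨O, hO⟩ := exists_val hc
  have ρ0 : (ρ : ℂ) ≠ 0 := r1 ▸ H.ne0 p₁
  have eu : u * conj u = 4 * ρ ^ 2 := by rw [mul_conj, normSq_eq_norm_sq, hu]; push_cast; ring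
  have ew : w * conj w = 4 * ρ ^ 2 := by rw [mul_conj, normSq_eq_norm_sq, hw]; push_cast; ring
  have u0 : u ≠ 0 := fun c => ρ0 (by simpa [c] using eu)
  have w0 : w ≠ 0 := fun c => ρ0 (by simpa [c] using ew)
  have cu : conj u = 4 * ρ ^ 2 / u := by field_simp; linear_combination eu
  have cw : conj w = 4 * ρ ^ 2 / w := by field_simp; linear_combination ew
  have e : ∀ p q, R p = ρ → R q = ρ → (dia C R p q : ℂ) =
      (C p - C q) * conj (C p - C q) / (4 * ρ ^ 2) := fun p q a b => by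
    rw [mul_conj, normSq_eq_norm_sq, dia, dist_eq_norm, a, b]; push_cast; ring
  have two : (2 : ℂ) ∈ O := by exact_mod_cast natCast_mem O 2
  have := H.four (p₁ := p₁) (p₂ := p₂) (p₃ := p₃) (p₄ := p₄)
    (H.tn (by rw [c1, c2, r1, r2, dist_self_add_right, hu]; ring))
    (H.tn (by rw [c2, c3, r2, r3, dist_self_add_right, hw]; ring))
    (H.tn (by rw [c3, c4, r3, r4, add_right_comm, dist_self_add_left, hu]; ring))
    (H.tn (by rw [c4, c1, r4, r1, dist_self_add_left, hw]; ring)) O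
  rw [e _ _ r1 r3, e _ _ r2 r4, c1, c2, c3, c4] at this
  refine hO (mem_of ?_)
  rcases this with h | h
  · convert sub_mem h two using 1
    rw [show z - (z + u + w) = -(u + w) by ring, map_neg, map_add, cu, cw]
    field_simp
    ring
  · convert sub_mem two h using 1
    rw [show z + u - (z + w) = u - w by ring, map_sub, cu, cw]
    field_simp
    ring

theorem quad {τ u w : ℂ} (hτ : 0 < τ.im) {a b x y x' y' : ℚ} (h : τ ^ 2 + a * τ + b = 0)
    (hu : u = x * τ + y) (hw : w = x' * τ + y') (u0 : u ≠ 0) (hn : ‖w‖ = ‖u‖)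
    (hi : IsIntegral ℤ (w / u)) :
    w = u ∨ w = -u ∨ ∃ s t : ℚ, τ = s + t * I ∨ τ = s + t * (√3 : ℝ) * I := by
  have h1 := congrArg re h
  have h2 := congrArg im h
  simp only [pow_two, add_re, add_im, mul_re, mul_im, ratCast_re, ratCast_im, zero_re,
    zero_im] at h1 h2
  have hre : τ.re = -a / 2 := by
    apply mul_left_cancel₀ hτ.ne'
    linear_combination (1 / 2) * h2
  have him : τ.im ^ 2 = b - a ^ 2 / 4 := by
    rw [hre] at h1
    linear_combination -h1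
  set ζ := w / u with hζ
  have n1 : ζ.re ^ 2 + ζ.im ^ 2 = 1 := by
    have : normSq ζ = 1 := by
      rw [normSq_eq_norm_sq, hζ, norm_div, hn, div_self (norm_ne_zero_iff.2 u0), one_pow]
    rw [normSq_apply] at this
    linear_combination this
  have N : normSq u = ((x ^ 2 * b - a * x * y + y ^ 2 : ℚ) : ℝ) := by
    simp [hu, normSq_apply, hre]
    linear_combination (x : ℝ) ^ 2 * him
  obtain ⟨k, hk⟩ : ∃ k : ℚ, 2 * ζ.re = k := ⟨(2 * x * x' * b - a * (x * y' + x' * y) + 2 * y * y') /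
      (x ^ 2 * b - a * x * y + y ^ 2), by
    rw [hζ, div_re, N]
    simp [hu, hw, hre]
    linear_combination (2 * x * x' / (x ^ 2 * b - a * x * y + y ^ 2) : ℝ) * him⟩
  obtain ⟨m, hm⟩ : ∃ m : ℚ, ζ.im = m * τ.im := ⟨(x' * y - x * y') /
      (x ^ 2 * b - a * x * y + y ^ 2), by
    rw [hζ, div_im, N]
    simp [hu, hw, hre]
    ring⟩
  have ik : IsIntegral ℤ k := by
    have := hi.add (hi.map (starRingEnd ℂ).toIntAlgHom)
    rw [RingHom.toIntAlgHom_apply, add_conj, hk] at this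
    exact (isIntegral_algebraMap_iff (algebraMap ℚ ℂ).injective).1 (by simpa using this)
  obtain ⟨j, rfl⟩ := IsIntegrallyClosed.isIntegral_iff.1 ik
  have hk' : 2 * ζ.re = j := by simpa using hk
  have j1 : j ≤ 2 := by
    have : (j : ℝ) ≤ 2 := by nlinarith [sq_nonneg (ζ.re - 1), sq_nonneg ζ.im]
    exact_mod_cast this
  have j2 : -2 ≤ j := by
    have : (-2 : ℝ) ≤ j := by nlinarith [sq_nonneg (ζ.re + 1), sq_nonneg ζ.im]
    exact_mod_cast this
  have real : ζ.im = 0 → w = ζ.re * u := fun c => by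
    rw [← div_mul_cancel₀ w u0, ← hζ]
    congr 1
    exact Complex.ext rfl (by simpa using c)
  have fin : ∀ d : ℝ, 0 < d → ζ.im ^ 2 = d ^ 2 → τ = (-a / 2 : ℚ) + (1 / |m| : ℚ) * d * I :=
    fun d hd e => by
    have m0 : (m : ℝ) ≠ 0 := fun c => by
      rw [hm, c] at e
      nlinarith
    have : |(m : ℝ)| * τ.im = d := by
      rw [← abs_of_pos hτ, ← abs_mul, ← hm, ← abs_of_pos hd]
      exact sq_eq_sq_iff_abs_eq_abs _ _ |>.1 e
    apply Complex.ext
    · simp [hre, -Rat.cast_div, -Rat.cast_inv, -Rat.cast_abs, -one_div]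
      simp
    · simp [← this, -Rat.cast_div, -Rat.cast_inv, -Rat.cast_abs, -one_div]
      simp [m0]
  have s3 : ζ.re ^ 2 = 1 / 4 → ∃ s t : ℚ, τ = s + t * I ∨ τ = s + t * (√3 : ℝ) * I := fun e =>
    ⟨-a / 2, 1 / |m| / 2, Or.inr (by
      rw [fin (√3 / 2) (by positivity) (by rw [div_pow, Real.sq_sqrt (by norm_num)]; linarith)]
      push_cast
      ring)⟩
  interval_cases j <;> push_cast at hk'
  · have e : ζ.re = -1 := by linarith
    exact Or.inr (Or.inl (by simpa [e] using real (by rw [e] at n1; nlinarith)))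
  · exact Or.inr (Or.inr (s3 (by nlinarith)))
  · exact Or.inr (Or.inr ⟨-a / 2, 1 / |m|, Or.inl (by
      have := fin 1 one_pos (by nlinarith)
      rwa [ofReal_one, mul_one] at this)⟩)
  · exact Or.inr (Or.inr (s3 (by nlinarith)))
  · have e : ζ.re = 1 := by linarith
    exact Or.inl (by simpa [e] using real (by rw [e] at n1; nlinarith))

theorem per_fin {τ : ℂ} (hτ : 0 < τ.im) {n : ℕ} (c : Fin n → ℂ) (r : Fin n → ℝ) (x : ℂ) (M : ℝ) :
    {p : Fin n × ℤ × ℤ | dist (c p.1 + (p.2.1 : ℂ) * τ + (p.2.2 : ℂ)) x ≤ r p.1 + M}.Finite := by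
  obtain ⟨B, hB⟩ := (finite_range fun i => r i + M + dist (c i) x).bddAbove
  obtain ⟨N, hN⟩ := exists_int_ge (B / τ.im)
  obtain ⟨K, hK⟩ := exists_int_ge (B + N * |τ.re|)
  refine (finite_univ.prod ((finite_Icc (-N) N).prod (finite_Icc (-K) K))).subset
    fun p hp => ?_
  have h : ‖(p.2.1 : ℂ) * τ + p.2.2‖ ≤ B := by
    have := dist_triangle_right (c p.1 + (p.2.1 * τ + p.2.2)) (c p.1) x
    rw [dist_self_add_left, ← add_assoc] at this
    exact this.trans ((add_le_add_left hp _).trans (hB ⟨p.1, rfl⟩))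
  have h1 : |(p.2.1 : ℝ)| ≤ N := by
    refine le_trans ((le_div_iff₀ hτ).2 ?_) hN
    simpa [abs_mul, abs_of_pos hτ] using (abs_im_le_norm _).trans h
  have h2 : |(p.2.2 : ℝ)| ≤ K := by
    have e : |p.2.1 * τ.re + p.2.2| ≤ B := by simpa using (abs_re_le_norm _).trans h
    have := abs_sub (p.2.1 * τ.re + p.2.2) (p.2.1 * τ.re)
    rw [add_sub_cancel_left, abs_mul] at this
    nlinarith [abs_nonneg τ.re]
  exact ⟨trivial, abs_le.1 (by exact_mod_cast h1), abs_le.1 (by exact_mod_cast h2)⟩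

end Pool.Agent.MP_3b6db3_gt.H5U
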