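import Pool.Agent.MP_3b6db3_gt.H5U.Alg

/-
Packings with triangular gaps: contact points and horns.
-/

set_option autoImplicit false

namespace Pool.Agent.MP_3b6db3_gt.H5U

open Set Metric Filter Topology Complex ComplexConjugate

variable {ι : Type} (C : ι → ℂ) (R : ι → ℝ)

/-- the complement of the closed discs. -/
def U : Set ℂ := (⋃ p, closedBall (C p) (R p))ᶜ

/-- locally finite packings all of whose gaps meet three discs. -/
structure Pk : Prop where
  pos : ∀ p, 0 < R p
  sep : ∀ p q, p ≠ q → R p + R q ≤ dist (C p) (C q)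
  fin : ∀ (x : ℂ) (M : ℝ), {p | dist (C p) x ≤ R p + M}.Finite
  gap : ∀ x ∈ U C R,
    {q | (closedBall (C q) (R q) ∩ closure (connectedComponentIn (U C R) x)).Nonempty}.ncard = 3

/-- tangent discs. -/
def Tn (p q : ι) : Prop := p ≠ q ∧ dist (C p) (C q) = R p + R q

/-- the direction from one centre to the other. -/
noncomputable def dr (p q : ι) : ℂ := (C q - C p) / (R p + R q)

/-- the contact point. -/
noncomputable def pt (p q : ι) : ℂ := C p + R p * dr C R p q

variable {C R}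

theorem Tn.symm {p q : ι} (h : Tn C R p q) : Tn C R q p :=
  ⟨h.1.symm, by rw [dist_comm, add_comm]; exact h.2⟩

theorem dr_swap (p q : ι) : dr C R q p = -dr C R p q := by
  unfold dr; rw [add_comm (R q : ℂ)]; ring

theorem Pk.ne (H : Pk C R) (p q : ι) : (R p + R q : ℂ) ≠ 0 := by
  have := add_pos (H.pos p) (H.pos q)
  exact_mod_cast this.ne'

theorem Pk.pt_swap (H : Pk C R) (p q : ι) : pt C R q p = pt C R p q := by
  have := H.ne p q
  rw [pt, pt, dr_swap, dr]; field_simp; ring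

theorem Pk.norm_dr (H : Pk C R) {p q : ι} (h : Tn C R p q) : ‖dr C R p q‖ = 1 := by
  have := add_pos (H.pos p) (H.pos q)
  rw [dr, norm_div, ← dist_eq_norm, dist_comm, h.2, ← ofReal_add, norm_real,
    Real.norm_of_nonneg this.le, div_self this.ne']

theorem Pk.pt_mem (H : Pk C R) {p q : ι} (h : Tn C R p q) :
    pt C R p q ∈ closedBall (C p) (R p) := by
  simp [pt, H.norm_dr h, abs_of_pos (H.pos p)]

theorem Pk.away (H : Pk C R) (x : ℂ) :
    ∀ᶠ y in 𝓝 x, ∀ k, x ∉ closedBall (C k) (R k) → y ∉ closedBall (C k) (R k) := by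
  have h1 := (H.fin x 1).eventually_all (l := 𝓝 x)
    (p := fun k y => x ∉ closedBall (C k) (R k) → y ∉ closedBall (C k) (R k)) |>.2 fun k _ => by
      by_cases hx : x ∈ closedBall (C k) (R k)
      · exact Eventually.of_forall fun _ h => absurd hx h
      · filter_upwards [isClosed_closedBall.isOpen_compl.mem_nhds hx] with y hy _ using hy
  filter_upwards [h1, ball_mem_nhds x one_pos] with y hy hb k hk hc
  refine hy k ?_ hk hc
  have := dist_triangle (C k) y x
  rw [mem_closedBall, dist_comm] at hc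
  rw [mem_ball] at hb
  show dist (C k) x ≤ R k + 1
  linarith

theorem strict {a b : ℂ} {r s : ℝ} (hr : 0 < r) (hs : 0 < s) (ha : ‖a‖ ≤ r) (hb : ‖b‖ ≤ s)
    (h : r + s ≤ ‖a + b‖) : s * a = r * b := by
  have h1 := pow_le_pow_left₀ (norm_nonneg _) ha 2
  have h2 := pow_le_pow_left₀ (norm_nonneg _) hb 2
  have h3 := pow_le_pow_left₀ (by positivity) h 2
  rw [Complex.sq_norm, normSq_apply] at h1 h2 h3
  simp only [add_re, add_im] at h3
  have h4 : (s * a.re - r * b.re) ^ 2 + (s * a.im - r * b.im) ^ 2 ≤ 0 := by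
    nlinarith [mul_le_mul_of_nonneg_left h3 (mul_pos hr hs).le,
      mul_le_mul_of_nonneg_left h1 (mul_pos hs (add_pos hr hs)).le,
      mul_le_mul_of_nonneg_left h2 (mul_pos hr (add_pos hr hs)).le]
  apply Complex.ext <;> simp <;> nlinarith [sq_nonneg (s * a.re - r * b.re),
    sq_nonneg (s * a.im - r * b.im)]

theorem Pk.rel (H : Pk C R) {p q : ι} (h : p ≠ q) {x : ℂ} (hp : x ∈ closedBall (C p) (R p))
    (hq : x ∈ closedBall (C q) (R q)) : R q * (x - C p) = R p * (C q - x) := by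
  refine strict (H.pos p) (H.pos q) (mem_closedBall_iff_norm.1 hp)
    (mem_closedBall_iff_norm'.1 hq) ?_
  have := H.sep p q h
  rw [dist_comm, dist_eq_norm] at this
  rwa [show x - C p + (C q - x) = C q - C p by ring]

theorem Pk.touch (H : Pk C R) {p q : ι} (h : p ≠ q) {x : ℂ} (hp : x ∈ closedBall (C p) (R p))
    (hq : x ∈ closedBall (C q) (R q)) : Tn C R p q ∧ x = pt C R p q := by
  refine ⟨⟨h, le_antisymm ?_ (H.sep p q h)⟩, ?_⟩
  · exact (dist_triangle_left _ _ x).trans (add_le_add hp hq)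
  · have := H.ne p q
    rw [pt, dr]; field_simp
    linear_combination H.rel h hp hq

theorem Pk.two (H : Pk C R) {p q k : ι} (h : p ≠ q) {x : ℂ} (hp : x ∈ closedBall (C p) (R p))
    (hq : x ∈ closedBall (C q) (R q)) (hk : x ∈ closedBall (C k) (R k)) : k = p ∨ k = q := by
  by_contra hc
  rw [not_or] at hc
  have e1 := H.rel h hp hq
  have e2 := H.rel (Ne.symm hc.1) hp hk
  have e3 := H.rel (Ne.symm hc.2) hq hk
  have n : ∀ j, (R j : ℂ) ≠ 0 := fun j => by exact_mod_cast (H.pos j).ne'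
  have e4 : 2 * R q * R k * (x - C p) = 0 := by
    linear_combination R k * e1 + R q * e2 - R p * e3
  have e5 : x = C p := by simpa [n, sub_eq_zero] using e4
  have := H.sep p q h
  rw [mem_closedBall, e5] at hq
  linarith [H.pos p]

theorem mem_U {x : ℂ} : x ∈ U C R ↔ ∀ k, x ∉ closedBall (C k) (R k) := by simp [U]

theorem out_iff {c e : ℂ} (he : ‖e‖ = 1) {r : ℝ} (hr : 0 < r) (b a : ℝ) :
    c + r * e + (b + a * I) * e ∉ closedBall c r ↔ r ^ 2 < (r + b) ^ 2 + a ^ 2 := by
  have : c + r * e + (b + a * I) * e - c = ((r + b : ℝ) + a * I) * e := by push_cast; ring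
  rw [mem_closedBall_iff_norm, this, norm_mul, he, mul_one, not_le,
    ← sq_lt_sq₀ hr.le (norm_nonneg _), Complex.sq_norm, normSq_add_mul_I]

theorem Pk.out1 (H : Pk C R) {p q : ι} (h : Tn C R p q) (b a : ℝ) :
    pt C R p q + (b + a * I) * dr C R p q ∉ closedBall (C p) (R p) ↔
      R p ^ 2 < (R p + b) ^ 2 + a ^ 2 := out_iff (H.norm_dr h) (H.pos p) b a

theorem Pk.out2 (H : Pk C R) {p q : ι} (h : Tn C R p q) (b a : ℝ) :
    pt C R p q + (b + a * I) * dr C R p q ∉ closedBall (C q) (R q) ↔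
      R q ^ 2 < (R q - b) ^ 2 + a ^ 2 := by
  have := H.out1 h.symm (-b) (-a)
  rw [neg_sq, ← sub_eq_add_neg (R q), H.pt_swap, dr_swap] at this
  rw [← this]
  congr! 3
  push_cast; ring

theorem Pk.horn (H : Pk C R) {p q : ι} (h : Tn C R p q) : ∃ g ∈ U C R,
    ∀ᶠ x in 𝓝 (pt C R p q), x ∉ closedBall (C p) (R p) → x ∉ closedBall (C q) (R q) →
      0 < ((x - pt C R p q) * conj (dr C R p q)).im → x ∈ connectedComponentIn (U C R) g := by
  have he := H.norm_dr h
  have hp := H.pos p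
  have hq := H.pos q
  obtain ⟨η₀, h0, hη⟩ := Metric.eventually_nhds_iff.1 (H.away (pt C R p q))
  obtain ⟨η, η1, η2, η3, η4⟩ : ∃ η, 0 < η ∧ η ≤ η₀ ∧ η ≤ R p ∧ η ≤ R q :=
    ⟨min η₀ (min (R p) (R q)), by positivity, min_le_left _ _,
      (min_le_right _ _).trans (min_le_left _ _), (min_le_right _ _).trans (min_le_right _ _)⟩
  set e := dr C R p q with ee
  set t := pt C R p q with et
  have o1 := H.out1 h
  have o2 := H.out2 h
  rw [← ee, ← et] at o1 o2
  have dd : ∀ b a : ℝ, dist (t + (b + a * I) * e) t < η ↔ b ^ 2 + a ^ 2 < η ^ 2 := fun b a => by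
    rw [dist_self_add_left, norm_mul, he, mul_one, ← sq_lt_sq₀ (norm_nonneg _) η1.le,
      Complex.sq_norm, normSq_add_mul_I]
  have inU : ∀ b a : ℝ, b ^ 2 + a ^ 2 < η ^ 2 → R p ^ 2 < (R p + b) ^ 2 + a ^ 2 →
      R q ^ 2 < (R q - b) ^ 2 + a ^ 2 → t + (b + a * I) * e ∈ U C R := fun b a a1 a2 a3 =>
    mem_U.2 fun k hk => by
      by_cases ht : t ∈ closedBall (C k) (R k)
      · rcases H.two h.1 (H.pt_mem h) (by rw [← H.pt_swap]; exact H.pt_mem h.symm) ht with r | r
        · exact (o1 b a).2 a2 (r ▸ hk)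
        · exact (o2 b a).2 a3 (r ▸ hk)
      · exact hη (((dd b a).2 a1).trans_le η2) k ht hk
  have L : ∀ a ∈ Ioo 0 η, t + ((0 : ℝ) + a * I) * e ∈ U C R := fun a ha =>
    inU 0 a (by nlinarith [ha.1, ha.2]) (by nlinarith [ha.1]) (by nlinarith [ha.1])
  have m : η / 2 ∈ Ioo 0 η := ⟨by linarith, by linarith⟩
  refine ⟨_, L _ m, ?_⟩
  filter_upwards [ball_mem_nhds t η1] with x hx x1 x2 x3
  obtain ⟨b, a, rfl⟩ : ∃ b a : ℝ, x = t + (b + a * I) * e :=
    ⟨((x - t) * conj e).re, ((x - t) * conj e).im, by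
      rw [re_add_im, mul_assoc, conj_mul', he]; simp⟩
  rw [add_sub_cancel_left, mul_assoc, mul_conj', he] at x3
  replace x3 : 0 < a := by simpa using x3
  rw [mem_ball, dd] at hx
  rw [o1] at x1
  rw [o2] at x2
  have a1 : a < η := by nlinarith
  have b1 : |b| < η := abs_lt_of_sq_lt_sq (by nlinarith) η1.le
  rw [abs_lt] at b1
  have s1 := (isPreconnected_Ioo.image (fun a : ℝ => t + ((0 : ℝ) + a * I) * e)
    (by fun_prop)).subset_connectedComponentIn (F := U C R) (mem_image_of_mem _ m)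
    (image_subset_iff.2 L)
    (mem_image_of_mem _ (⟨x3, a1⟩ : a ∈ Ioo 0 η))
  rw [connectedComponentIn_eq s1]
  have s2 := (isPreconnected_Icc.image (fun κ : ℝ => t + ((κ * b : ℝ) + a * I) * e)
    (by fun_prop)).subset_connectedComponentIn (F := U C R)
    (mem_image_of_mem _ (left_mem_Icc.2 zero_le_one)) (image_subset_iff.2 fun κ hκ => by
      obtain ⟨k0, k1⟩ := hκ
      have k2 : κ ^ 2 ≤ 1 := by nlinarith
      refine inU _ _ (by nlinarith [sq_nonneg b]) ?_ ?_
      · rcases le_total 0 b with hb | hb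
        · nlinarith [mul_nonneg k0 hb, mul_pos x3 x3]
        · have : R p + b ≤ R p + κ * b := by nlinarith
          nlinarith
      · rcases le_total 0 b with hb | hb
        · have : R q - b ≤ R q - κ * b := by nlinarith
          nlinarith
        · nlinarith [mul_nonneg k0 (neg_nonneg.2 hb), mul_pos x3 x3])
    (mem_image_of_mem _ (right_mem_Icc.2 zero_le_one))
  simpa using s2

open Classical in
/-- a point of the gap that contains the horn. -/
noncomputable def Pk.hz (H : Pk C R) (p q : ι) : ℂ :=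
  if h : Tn C R p q then (H.horn h).choose else 0

/-- the gap that contains the horn. -/
def Pk.gp (H : Pk C R) (p q : ι) : Set ℂ := connectedComponentIn (U C R) (H.hz p q)

theorem Pk.hz_mem (H : Pk C R) {p q : ι} (h : Tn C R p q) : H.hz p q ∈ U C R := by
  rw [Pk.hz, dif_pos h]; exact (H.horn h).choose_spec.1

theorem Pk.gp_ev (H : Pk C R) {p q : ι} (h : Tn C R p q) :
    ∀ᶠ x in 𝓝 (pt C R p q), x ∉ closedBall (C p) (R p) → x ∉ closedBall (C q) (R q) →
      0 < ((x - pt C R p q) * conj (dr C R p q)).im → x ∈ H.gp p q := by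
  rw [Pk.gp, Pk.hz, dif_pos h]; exact (H.horn h).choose_spec.2

theorem line_tendsto (t e : ℂ) : Tendsto (fun a : ℝ => t + a * I * e) (𝓝[>] 0) (𝓝 t) :=
  (Continuous.tendsto' (by fun_prop) 0 t (by simp)).mono_left nhdsWithin_le_nhds

theorem Pk.gp_line (H : Pk C R) {p q : ι} (h : Tn C R p q) :
    ∀ᶠ a : ℝ in 𝓝[>] 0, pt C R p q + a * I * dr C R p q ∈ H.gp p q := by
  filter_upwards [(line_tendsto _ (dr C R p q)).eventually (H.gp_ev h), self_mem_nhdsWithin]
    with a ha (a0 : 0 < a)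
  refine ha ?_ ?_ ?_
  · simpa using (H.out1 h 0 a).2 (by nlinarith)
  · simpa using (H.out2 h 0 a).2 (by nlinarith)
  · rw [add_sub_cancel_left, mul_assoc, mul_conj', H.norm_dr h]
    simpa using a0

theorem Pk.pt_cl (H : Pk C R) {p q : ι} (h : Tn C R p q) : pt C R p q ∈ closure (H.gp p q) :=
  mem_closure_of_tendsto (line_tendsto _ _) (H.gp_line h)

end Pool.Agent.MP_3b6db3_gt.H5U
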