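import Pool.Agent.MP_3b6db3_gt.H5U.Wind

/-
Four-cycles of tangent discs in a packing with triangular gaps.
-/

set_option autoImplicit false

namespace Pool.Agent.MP_3b6db3_gt.H5U

open Set Metric Complex ComplexConjugate

variable {ι : Type} (C : ι → ℂ) (R : ι → ℝ)

/-- the polarised equation of a circle. -/
noncomputable def eqn (p : ι) (z w : ℂ) : ℂ := R p - (z - C p) * (conj w - conj (C p)) / R p

/-- the circle in coordinates in which `s` and `t` are zero and infinity. -/
noncomputable def mat (s t α β γ δ : ℂ) (p : ι) : M4 :=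
  ⟨α * eqn C R p s s, β * eqn C R p s t, γ * eqn C R p t s, δ * eqn C R p t t⟩

/-- the normalised square of the distance. -/
noncomputable def dia (p q : ι) : ℝ := (dist (C p) (C q) ^ 2 - (R p - R q) ^ 2) / (4 * R p * R q)

variable {C R}

theorem Pk.ne0 (H : Pk C R) (p : ι) : (R p : ℂ) ≠ 0 := ofReal_ne_zero.2 (H.pos p).ne'

theorem Pk.bil_mat (H : Pk C R) {s t α β γ δ : ℂ} (h1 : α * δ = β * γ)
    (h2 : β * γ * ((s - t) * (conj s - conj t)) = 1) (p q : ι) :
    bil (mat C R s t α β γ δ p) (mat C R s t α β γ δ q) = 4 * dia C R p q - 2 := by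
  have e : ((dist (C p) (C q) : ℝ) : ℂ) ^ 2 = (C p - C q) * (conj (C p) - conj (C q)) := by
    rw [← map_sub, mul_conj, normSq_eq_norm_sq, dist_eq_norm, ofReal_pow]
  have := H.ne0 p
  have := H.ne0 q
  have k : eqn C R p s s * eqn C R q t t + eqn C R q s s * eqn C R p t t -
      eqn C R p s t * eqn C R q t s - eqn C R q s t * eqn C R p t s =
      (s - t) * (conj s - conj t) * (4 * dia C R p q - 2) := by
    simp only [eqn, dia]
    push_cast
    rw [e]
    field_simp
    ring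
  simp only [bil, mat]
  linear_combination (eqn C R p s s * eqn C R q t t + eqn C R q s s * eqn C R p t t) * h1 +
    β * γ * k + (4 * dia C R p q - 2) * h2

theorem Pk.dr_conj (H : Pk C R) {p q : ι} (h : Tn C R p q) :
    dr C R p q * conj (dr C R p q) = 1 := by
  rw [mul_conj, normSq_eq_norm_sq, H.norm_dr h]; simp

theorem Pk.eqn_eq (H : Pk C R) {p q : ι} (h : Tn C R p q) (z w : ℂ) :
    eqn C R p z w = -((z - pt C R p q) * (conj w - conj (pt C R p q))) / R p -
      (dr C R p q * (conj w - conj (pt C R p q)) + conj (dr C R p q) * (z - pt C R p q)) := by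
  have := H.ne0 p
  have e := H.dr_conj h
  simp only [eqn, pt, map_add, map_mul, conj_ofReal]
  field_simp
  linear_combination (-(R p : ℂ) ^ 2) * e

theorem Pk.eqn_add (H : Pk C R) {p q : ι} (h : Tn C R p q) (z w : ℂ) :
    eqn C R p z w + eqn C R q z w =
      -((R p + R q) / (R p * R q)) * ((z - pt C R p q) * conj (w - pt C R p q)) := by
  have := H.ne0 p
  have := H.ne0 q
  rw [H.eqn_eq h, H.eqn_eq h.symm, H.pt_swap, dr_swap, map_neg, map_sub]
  field_simp
  ring

theorem dia_self (p : ι) : dia C R p p = 0 := by simp [dia]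

theorem Pk.dia_tn (H : Pk C R) {p q : ι} (h : Tn C R p q) : dia C R p q = 1 := by
  have := (H.pos p).ne'
  have := (H.pos q).ne'
  rw [dia, h.2]
  field_simp
  ring

theorem Pk.tg (H : Pk C R) {s t α β γ δ : ℂ} (h1 : α * δ = β * γ)
    (h2 : β * γ * ((s - t) * (conj s - conj t)) = 1) {p q : ι} (h : Tn C R p q) :
    Tg (mat C R s t α β γ δ p) (mat C R s t α β γ δ q) := by
  refine ⟨by rw [H.bil_mat h1 h2, dia_self]; simp, by rw [H.bil_mat h1 h2, dia_self]; simp,
    by rw [H.bil_mat h1 h2, H.dia_tn h]; norm_num, fun ⟨a, _, _, d⟩ => ?_⟩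
  have k : α * δ ≠ 0 := fun c => by simp [← h1, c] at h2
  have := H.ne0 p
  have := H.ne0 q
  have := H.ne p q
  simp only [mat, ← mul_add, H.eqn_add h] at a d
  have a' : s = pt C R p q := by
    simpa [left_ne_zero_of_mul k, sub_eq_zero, -map_sub, *] using a
  have d' : t = pt C R p q := by
    simpa [right_ne_zero_of_mul k, sub_eq_zero, -map_sub, *] using d
  simp [a', d'] at h2

theorem Pk.core (H : Pk C R) {p₁ p₂ p₄ : ι} (h12 : Tn C R p₁ p₂) (h41 : Tn C R p₄ p₁)
    (O : ValuationSubring ℂ) (hY : (dia C R p₂ p₄ : ℂ) ∉ O) :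
    ∃ A : ι → M4, (∀ p q, Tn C R p q → Tg (A p) (A q)) ∧ Act O.valuation (A p₁) ∧
      ¬ Act O.valuation (A p₂) ∧ ¬ Act O.valuation (A p₄) ∧ Eps O.valuation (A p₁) (A p₂) ∧
      ¬ Eps O.valuation (A p₄) (A p₁) ∧ ∀ q, Act O.valuation (A q) → (dia C R p₁ q : ℂ) ∈ O := by
  simp only [← O.valuation_le_one_iff] at hY ⊢
  set v := O.valuation
  have h14 := h41.symm
  set s := pt C R p₁ p₄ with hs
  set t := pt C R p₁ p₂ with ht
  have st : s - t ≠ 0 := fun c => hY (by
    have e : dr C R p₁ p₄ = dr C R p₁ p₂ := by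
      apply mul_left_cancel₀ (H.ne0 p₁)
      simp only [hs, ht, pt] at c
      linear_combination c
    have e2 : C p₂ - C p₄ = ((R p₂ - R p₄ : ℝ) : ℂ) * dr C R p₁ p₂ := by
      have i2 : C p₂ - C p₁ = (R p₁ + R p₂) * dr C R p₁ p₂ := by
        rw [dr, mul_div_cancel₀ _ (H.ne _ _)]
      have i4 : C p₄ - C p₁ = (R p₁ + R p₄) * dr C R p₁ p₄ := by
        rw [dr, mul_div_cancel₀ _ (H.ne _ _)]
      push_cast
      linear_combination i2 - i4 - (R p₁ + R p₄) * e
    simp only [dia, dist_eq_norm, e2, norm_mul, H.norm_dr h12, mul_one, norm_real,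
      Real.norm_eq_abs, sq_abs]
    simp)
  have st' : conj s - conj t ≠ 0 := by rwa [← map_sub, map_ne_zero]
  have a1 : eqn C R p₁ s s = 0 := by simp [H.eqn_eq h14, ← hs]
  have d1 : eqn C R p₁ t t = 0 := by simp [H.eqn_eq h12, ← ht]
  have m : eqn C R p₁ s t * eqn C R p₁ t s = (s - t) * (conj s - conj t) := by
    have := H.bil_mat (s := s) (t := t) (α := 1) (δ := 1 / ((s - t) * (conj s - conj t))) (β := 1)
      (γ := 1 / ((s - t) * (conj s - conj t))) rfl (by field_simp) p₁ p₁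
    simp only [bil, mat, a1, d1, dia_self] at this
    field_simp at this
    push_cast at this
    linear_combination (-1 / 2) * this
  have m0 := m ▸ mul_ne_zero st st'
  have d4 : eqn C R p₄ t t ≠ 0 := by
    have := H.eqn_add h14 t t
    rw [d1, zero_add] at this
    have ts : t - s ≠ 0 := fun c => st (by linear_combination -c)
    simp [this, H.ne0, H.ne, ← hs, ts, -map_sub]
  have b0 := left_ne_zero_of_mul m0
  have g0 := right_ne_zero_of_mul m0
  obtain ⟨A, T, B, e1, e2, e4⟩ : ∃ A : ι → M4, (∀ p q, Tn C R p q → Tg (A p) (A q)) ∧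
      (∀ p q, bil (A p) (A q) = 4 * dia C R p q - 2) ∧ A p₁ = ⟨0, 1, 1, 0⟩ ∧
      (∃ a, A p₂ = ⟨a, -1, -1, 0⟩) ∧ A p₄ = ⟨0, -1, -1, 2⟩ := by
    have h1 : 1 / eqn C R p₁ s t * (1 / eqn C R p₁ t s) / (2 / eqn C R p₄ t t) *
      (2 / eqn C R p₄ t t) = 1 / eqn C R p₁ s t * (1 / eqn C R p₁ t s) := by field_simp
    have h2 : 1 / eqn C R p₁ s t * (1 / eqn C R p₁ t s) * ((s - t) * (conj s - conj t)) = 1 := by
      rw [← m]; field_simp
    have z2 : ∀ z w, z = t ∨ w = t → eqn C R p₂ z w = -eqn C R p₁ z w := fun z w h => by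
      have := H.eqn_add h12 z w
      rcases h with rfl | rfl <;> simp only [← ht, sub_self, map_zero] at this <;>
        linear_combination this
    have z4 : ∀ z w, z = s ∨ w = s → eqn C R p₄ z w = -eqn C R p₁ z w := fun z w h => by
      have := H.eqn_add h14 z w
      rcases h with rfl | rfl <;> simp only [← hs, sub_self, map_zero] at this <;>
        linear_combination this
    refine ⟨mat C R s t _ _ _ _, fun p q => H.tg h1 h2, H.bil_mat h1 h2, ?_, ?_, ?_⟩
    · simp [mat, a1, d1, b0, g0]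
    · simp [mat, z2 s t, z2 t, d1, b0, g0]
    · simp [mat, z4 s, z4 t s, a1, d4, b0, g0]
  obtain ⟨a, e2⟩ := e2
  have ea : a / 2 = dia C R p₂ p₄ := by
    have := B p₂ p₄
    simp only [e2, e4, bil] at this
    linear_combination (1 / 4) * this
  have a0 : a ≠ 0 := fun c => hY (by simp [← ea, c])
  refine ⟨A, T, by simp [e1, Act, InJ], fun c => hY (by simpa only [e2, ea] using c.1),
    fun c => by simpa [e4] using c.2.2.2, Or.inl (by simpa [e1, e2] using vpos a0),
    by simp [e1, e4, Eps], fun q ⟨c1, c2, c3, c4⟩ => ?_⟩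
  have i1 := B p₁ q
  have i3 := B q q
  simp only [e1, bil, dia_self] at i1 i3
  push_cast at i3
  convert v.map_add_le v.map_one.le (v.map_sub_le (le_mul1 c1 c4.le) (le_mul1
    (v.map_add_le c2 v.map_one.le) (v.map_add_le c3 v.map_one.le))) using 2
  linear_combination (-1 / 4) * i1 - (1 / 8) * i3

theorem Pk.chain (H : Pk C R) {p : ι} {q : ℕ → ι} {m : ℕ} (h0 : Tn C R p (q 0))
    (h : ∀ i < m, Tn C R (q i) (q (i + 1))) (hm : Tn C R (q m) p) (O : ValuationSubring ℂ) :
    (dia C R (q 0) (q m) : ℂ) ∈ O ∨ ∃ i, 0 < i ∧ i < m ∧ (dia C R p (q i) : ℂ) ∈ O := by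
  by_contra hc
  rw [not_or] at hc
  obtain ⟨A, T, n1, n2, n4, y1, y4, n3⟩ := H.core h0 hm O hc.1
  have ina : ∀ i ≤ m, ind (Act O.valuation (A (q i))) = 0 := fun i hi => ind_neg fun c => by
    rcases i.eq_zero_or_pos with rfl | i0
    · exact n2 c
    · rcases hi.eq_or_lt with rfl | i1
      · exact n4 c
      · exact hc.2 ⟨i, i0, i1, n3 _ c⟩
  have := H.cycle (fun p q => om O.valuation (A p) (A q)) (fun _ _ => om_comm _ _)
    (fun _ _ _ x y z => om_tri (T _ _ x) (T _ _ y) (T _ _ z)) (E := Fin (m + 2))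
    (fun e => if e = 0 then p else q (e - 1)) (fun e => if e = Fin.last _ then p else q e)
    (fun e => ?_) (finRotate _) fun e => ?_
  · rw [Fin.sum_univ_succ, Fin.sum_univ_castSucc, Finset.sum_eq_zero fun i _ => by
      simp [om, ina i i.2.le, ina (i + 1) i.2, Fin.ext_iff, i.2.ne]] at this
    simp [om, ind_pos n1, ind_neg n2, ind_pos y1, ind_neg y4] at this
  · refine Fin.cases (by simpa using h0) (fun e => Fin.lastCases (by simpa using hm)
      (fun i => ?_) e) e
    simpa [Fin.ext_iff, i.2.ne] using h i i.2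
  · refine Fin.lastCases (by simp) (fun i => ?_) e
    simp [Fin.castSucc_ne_last]

theorem Pk.four (H : Pk C R) {p₁ p₂ p₃ p₄ : ι} (h12 : Tn C R p₁ p₂) (h23 : Tn C R p₂ p₃)
    (h34 : Tn C R p₃ p₄) (h41 : Tn C R p₄ p₁) (O : ValuationSubring ℂ) :
    (dia C R p₁ p₃ : ℂ) ∈ O ∨ (dia C R p₂ p₄ : ℂ) ∈ O := by
  refine (H.chain (q := fun i => if i = 0 then p₂ else if i = 1 then p₃ else p₄) (m := 2) h12
    (fun i hi => by interval_cases i <;> assumption) h41 O).symm.imp_left fun ⟨i, a, b, c⟩ => ?_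
  interval_cases i
  exact c

end Pool.Agent.MP_3b6db3_gt.H5U
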