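import Pool.Agent.MP_3b6db3_gt.H5U.Bal

/-
A cocycle on tangent triples vanishes on every closed chain of tangent discs.
-/

set_option autoImplicit false

namespace Pool.Agent.MP_3b6db3_gt.H5U

open Set Metric Filter Topology Complex ComplexConjugate

variable {ι : Type} {C : ι → ℂ} {R : ι → ℝ}

theorem ind_ne {p : Prop} (h : ind p ≠ 0) : p := by_contra fun c => h (ind_neg c)

theorem Pk.gapsum (H : Pk C R) (ω : ι → ι → ZMod 2) (hs : ∀ p q, ω p q = ω q p)
    (ht : ∀ p q k, Tn C R p q → Tn C R p k → Tn C R q k → ω p q + ω p k + ω q k = 0) {g : ℂ}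
    (hg : g ∈ U C R) (D : Finset (ι × ι))
    (hD : ∀ d : ι × ι, Tn C R d.1 d.2 → H.gp d.1 d.2 = connectedComponentIn (U C R) g → d ∈ D) :
    ∑ d ∈ D, ind (Tn C R d.1 d.2 ∧ H.gp d.1 d.2 = connectedComponentIn (U C R) g) *
      ω d.1 d.2 = 0 := by
  classical
  obtain ⟨a, b, c, ab, ac, bc, hT⟩ := ncard_eq_three.1 (H.gap g hg)
  set n : ι → ι → ZMod 2 := fun p q =>
    ind (Tn C R p q ∧ H.gp p q = connectedComponentIn (U C R) g) with hn
  have supp : ∀ p q, n p q ≠ 0 → p ∈ ({a, b, c} : Finset ι) ∧ q ∈ ({a, b, c} : Finset ι) := by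
    intro p q h
    obtain ⟨h1, h2⟩ := ind_ne h
    have m := H.pt_cl h1
    rw [h2] at m
    have m1 : p ∈ ({a, b, c} : Set ι) := hT ▸ ⟨_, H.pt_mem h1, m⟩
    have m2 : q ∈ ({a, b, c} : Set ι) := hT ▸ ⟨_, H.pt_swap p q ▸ H.pt_mem h1.symm, m⟩
    simpa using And.intro m1 m2
  have dg : ∀ p, n p p = 0 := fun p => ind_neg fun h => h.1.1 rfl
  have tn : ∀ p q, n p q + n q p ≠ 0 → Tn C R p q := fun p q h => by_contra fun c =>
    h (by rw [hn]; simp only; rw [ind_neg fun x => c x.1, ind_neg fun x => c x.1.symm, add_zero])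
  have bal : ∀ p, ∑ q ∈ ({a, b, c} : Finset ι), (n p q - n q p) = 0 := fun p => by
    rw [← H.bal p g]
    refine Finset.sum_congr_of_eq_on_inter (fun q _ h => ?_) (fun q h h' => ?_) fun q _ h => ?_
    · rw [hn]
      simp only [Finite.mem_toFinset, mem_ofPred_eq] at h ⊢
      rw [ind_neg fun x => h x.1, ind_neg fun x => h x.1.symm, sub_zero]
    · replace h : Tn C R p q := by simpa using h
      rw [ind_neg fun x => h' (supp p q (by simp [hn, ind_pos (And.intro h x)])).2,
        ind_neg fun x => h' (supp q p (by simp [hn, ind_pos (And.intro h.symm x)])).1, sub_zero]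
    · replace h : Tn C R p q := by simpa using h
      simp [hn, h, h.symm]
  have e : ∑ d ∈ D, n d.1 d.2 * ω d.1 d.2 =
      ∑ d ∈ ({a, b, c} : Finset ι) ×ˢ ({a, b, c} : Finset ι), n d.1 d.2 * ω d.1 d.2 :=
    Finset.sum_congr_of_eq_on_inter
      (fun d _ h => by
        rw [not_not.1 fun x => h (Finset.mem_product.2 (supp _ _ x)), zero_mul])
      (fun d _ h => by
        rw [not_not.1 fun x : n d.1 d.2 ≠ 0 => h (hD d (ind_ne x).1 (ind_ne x).2), zero_mul])
      fun _ _ _ => rfl
  have s3 : ∀ f : ι → ZMod 2, ∑ q ∈ ({a, b, c} : Finset ι), f q = f a + f b + f c := fun f => by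
    rw [Finset.sum_insert (by simp [ab, ac]), Finset.sum_pair bc, add_assoc]
  have b1 := bal a
  have b2 := bal b
  have b3 : n a b + n b a ≠ 0 → n a c + n c a ≠ 0 → n b c + n c b ≠ 0 → _ := fun x y z =>
    ht a b c (tn _ _ x) (tn _ _ y) (tn _ _ z)
  rw [e, Finset.sum_product]
  simp only [s3, dg, hs b a, hs c a, hs c b, zero_mul, sub_self, zero_add, add_zero] at b1 b2 ⊢
  generalize n a b = n1, n b a = n2, n a c = n3, n c a = n4, n b c = n5, n c b = n6,
    ω a b = w1, ω a c = w2, ω b c = w3 at *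
  revert n1 n2 n3 n4 n5 n6 w1 w2 w3
  decide

variable (C) in
/-- the ratio of the vectors to two centres. -/
noncomputable def rho (p q : ι) (x : ℂ) : ℂ := 1 + (C q - C p) * (C p - x)⁻¹

variable (C) in
/-- its square root. -/
noncomputable def psi (p q : ι) (x : ℂ) : ℂ := exp (log (rho C p q x) / 2)

theorem rho_eq {p q : ι} {x : ℂ} (h : x ≠ C p) : rho C p q x = (C q - x) / (C p - x) := by
  have := sub_ne_zero.2 h.symm
  unfold rho; field_simp; ring

theorem psi_sq {p q : ι} {x : ℂ} (h : rho C p q x ∈ slitPlane) :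
    psi C p q x * psi C p q x = rho C p q x := by
  rw [psi, ← exp_add, add_halves, exp_log (slitPlane_ne_zero h)]

theorem rho_cont {p q : ι} {x : ℂ} (h : x ≠ C p) : ContinuousAt (rho C p q) x := by
  have := sub_ne_zero.2 h.symm
  unfold rho; fun_prop (disch := assumption)

theorem psi_cont {p q : ι} {x : ℂ} (h : x ≠ C p) (h' : rho C p q x ∈ slitPlane) :
    ContinuousAt (psi C p q) x :=
  continuous_exp.continuousAt.comp (((rho_cont h).clog h').div_const 2)

theorem Pk.slit (H : Pk C R) {p q : ι} (h : Tn C R p q) {x : ℂ} (h1 : R p ≤ dist x (C p))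
    (h2 : R q ≤ dist x (C q)) (h3 : x ≠ pt C R p q) : rho C p q x ∈ slitPlane := by
  by_contra hc
  have n : x ≠ C p := fun e => by simp [e, (H.pos p).not_ge] at h1
  rw [mem_slitPlane_iff, not_or, not_lt, not_not] at hc
  obtain ⟨l, l0, hl⟩ : ∃ l : ℝ, 0 ≤ l ∧ rho C p q x = -l :=
    ⟨-(rho C p q x).re, by linarith [hc.1], Complex.ext (by simp) (by simp [hc.2])⟩
  rw [rho_eq n, div_eq_iff (sub_ne_zero.2 n.symm)] at hl
  have e1 : dist x (C q) = l * dist x (C p) := by
    rw [dist_comm, dist_eq_norm, hl, dist_comm, dist_eq_norm]; simp [abs_of_nonneg l0]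
  have e2 : dist (C p) (C q) = (1 + l) * dist x (C p) := by
    rw [dist_eq_norm, show C p - C q = ((1 + l : ℝ) : ℂ) * (C p - x) by
      push_cast; linear_combination -hl, norm_mul, norm_real, Real.norm_of_nonneg (by linarith),
      dist_comm, dist_eq_norm]
  rw [h.2] at e2
  exact h3 (H.touch h.1 (mem_closedBall.2 (by linarith)) (mem_closedBall.2 (by linarith))).2

theorem Pk.rho_line (H : Pk C R) {p q : ι} (h : Tn C R p q) (b : ℝ) :
    rho C p q (pt C R p q + b * I * dr C R p q) = 1 - (R p + R q) * (R p + b * I)⁻¹ := by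
  have n : dr C R p q ≠ 0 := fun e => by simpa [e] using H.norm_dr h
  have n' : (R p + b * I : ℂ) ≠ 0 := fun e => by simpa [(H.pos p).ne'] using congrArg re e
  have := H.ne p q
  have e : C q - C p = (R p + R q) * dr C R p q := by unfold dr; field_simp
  rw [rho, e, show C p - (pt C R p q + b * I * dr C R p q) = -((R p + b * I) * dr C R p q) by
    unfold pt; ring]
  field_simp
  ring

theorem Pk.psi_line (H : Pk C R) {p q : ι} (h : Tn C R p q) :
    Tendsto (fun b : ℝ => psi C p q (pt C R p q + b * I * dr C R p q) *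
      psi C p q (pt C R p q + b * I * -dr C R p q)) (𝓝[>] 0) (𝓝 (-rho C p q (pt C R p q))) := by
  have hp := H.pos p
  have hq := H.pos q
  have n : pt C R p q ≠ C p := fun e => by
    have : dr C R p q = 0 := by simpa [pt, hp.ne'] using e
    simpa [this] using H.norm_dr h
  have e0 : rho C p q (pt C R p q) = -(R q / R p : ℝ) := by
    have := H.rho_line h 0
    have n' : (R p : ℂ) ≠ 0 := by exact_mod_cast hp.ne'
    simp only [ofReal_zero, zero_mul, add_zero] at this
    rw [this]; push_cast; field_simp; ring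
  have t := (continuous_ofReal.tendsto _).comp
    (((rho_cont (q := q) n).tendsto.comp (line_tendsto _ (dr C R p q))).norm)
  rw [e0, norm_neg, norm_real, Real.norm_of_nonneg (by positivity)] at t
  rw [e0, neg_neg]
  refine t.congr' ?_
  filter_upwards [H.gp_line h] with b hb
  have u := mem_U.1 (connectedComponentIn_subset _ _ hb)
  have s := H.slit h (not_lt.1 fun c => u p (ball_subset_closedBall c))
    (not_lt.1 fun c => u q (ball_subset_closedBall c)) fun c => u p (c.symm ▸ H.pt_mem h)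
  have e : rho C p q (pt C R p q + b * I * -dr C R p q) =
      conj (rho C p q (pt C R p q + b * I * dr C R p q)) := by
    have := H.rho_line h (-b)
    rw [H.rho_line h, show b * I * -dr C R p q = (-b : ℝ) * I * dr C R p q by push_cast; ring, this]
    simp
  rw [psi, psi, e, log_conj _ (slitPlane_arg_ne_pi s), ← exp_add, ← add_div, add_conj, log_re]
  simp only [Function.comp_apply]
  rw [show ((2 * Real.log ‖rho C p q (pt C R p q + b * I * dr C R p q)‖ : ℝ) : ℂ) / 2 =
    (Real.log ‖rho C p q (pt C R p q + b * I * dr C R p q)‖ : ℝ) by push_cast; ring,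
    ← ofReal_exp, Real.exp_log (norm_pos_iff.2 (slitPlane_ne_zero s))]

/-- the sign character. -/
noncomputable def sg (k : ZMod 2) : ℂ := if k = 0 then 1 else -1

theorem sg_add (a b : ZMod 2) : sg (a + b) = sg a * sg b := by
  have e : (1 + 1 : ZMod 2) = 0 := rfl
  have h : ∀ x : ZMod 2, x = 0 ∨ x = 1 := by decide
  rcases h a with rfl | rfl <;> rcases h b with rfl | rfl <;> simp [sg, e]

theorem sg_inj {a b : ZMod 2} (e : sg a = sg b) : a = b := by
  have h : ∀ x : ZMod 2, x = 0 ∨ x = 1 := by decide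
  rcases h a with rfl | rfl <;> rcases h b with rfl | rfl <;> simp [sg] at e ⊢ <;> norm_num at e

theorem sg_sum {E : Type} (s : Finset E) (k : E → ZMod 2) :
    sg (∑ e ∈ s, k e) = ∏ e ∈ s, sg (k e) := by
  classical
  induction s using Finset.induction_on with
  | empty => simp [sg]
  | insert a s h ih => rw [Finset.sum_insert h, Finset.prod_insert h, sg_add, ih]

theorem sg_ind {z : ℂ} (h : z * z = 1) : sg (ind (z = -1)) = z := by
  rcases mul_self_eq_one_iff.1 h with rfl | rfl
  · rw [ind_neg (by norm_num)]; simp [sg]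
  · rw [ind_pos rfl]; simp [sg]

theorem Pk.cycle (H : Pk C R) (ω : ι → ι → ZMod 2) (hs : ∀ p q, ω p q = ω q p)
    (ht : ∀ p q k, Tn C R p q → Tn C R p k → Tn C R q k → ω p q + ω p k + ω q k = 0)
    {E : Type} [Fintype E] (s t : E → ι) (hT : ∀ e, Tn C R (s e) (t e)) (σ : Equiv.Perm E)
    (hσ : ∀ e, t e = s (σ e)) : ∑ e, ω (s e) (t e) = 0 := by
  classical
  set Ψ : ℂ → ℂ := fun x => ∏ e, psi C (s e) (t e) x with hΨ
  have pr : ∀ x, (∀ k, x ≠ C k) → ∏ e, rho C (s e) (t e) x = 1 := fun x hx => by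
    simp only [rho_eq (hx _), hσ]
    rw [Finset.prod_div_distrib, Equiv.prod_comp σ fun e => C (s e) - x]
    exact div_self (Finset.prod_ne_zero_iff.2 fun e _ => sub_ne_zero.2 (hx _).symm)
  have nU : ∀ x ∈ U C R, ∀ k, x ≠ C k := fun x hx k e =>
    mem_U.1 hx k (e ▸ mem_closedBall_self (H.pos k).le)
  have sU : ∀ x ∈ U C R, ∀ e, rho C (s e) (t e) x ∈ slitPlane := fun x hx e =>
    H.slit (hT e) (not_lt.1 fun c => mem_U.1 hx _ (ball_subset_closedBall c))
      (not_lt.1 fun c => mem_U.1 hx _ (ball_subset_closedBall c))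
      fun c => mem_U.1 hx _ (c ▸ H.pt_mem (hT e))
  have sq : ∀ x ∈ U C R, Ψ x * Ψ x = 1 := fun x hx => by
    rw [← pr x (nU x hx), ← Finset.prod_mul_distrib]
    exact Finset.prod_congr rfl fun e _ => psi_sq (sU x hx e)
  have cst : ∀ g ∈ U C R, ∀ x ∈ connectedComponentIn (U C R) g, Ψ x = Ψ g := fun g hg x hx =>
    isPreconnected_connectedComponentIn.constant_of_mapsTo (T := {1, -1})
      (toFinite _).isDiscrete (fun y hy => (tendsto_finsetProd _ fun e _ =>
        psi_cont (nU y (connectedComponentIn_subset _ _ hy) _)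
          (sU y (connectedComponentIn_subset _ _ hy) e)).mono_left nhdsWithin_le_nhds)
      (fun y hy => mul_self_eq_one_iff.1 (sq y (connectedComponentIn_subset _ _ hy))) hx
      (mem_connectedComponentIn hg)
  obtain ⟨M, hM⟩ : ∃ M : ℝ, ∀ x, Ψ x = -1 → x ∈ closedBall (0 : ℂ) M := by
    have t1 : Tendsto Ψ (Bornology.cobounded ℂ) (𝓝 (∏ _e : E, 1)) :=
      tendsto_finsetProd _ fun e _ => by
        have a1 := ((tendsto_inv₀_cobounded.comp
          (tendsto_const_sub_cobounded (C (s e)))).const_mul (C (t e) - C (s e))).const_add 1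
        rw [mul_zero, add_zero] at a1
        have a2 := (continuous_exp.tendsto _).comp ((a1.clog one_mem_slitPlane).div_const 2)
        rw [log_one, zero_div, exp_zero] at a2
        exact a2
    rw [Finset.prod_const_one] at t1
    obtain ⟨M, -, h⟩ := (hasBasis_cobounded_compl_closedBall (0 : ℂ)).eventually_iff.1
      (t1.eventually_ne (show (1 : ℂ) ≠ -1 by norm_num))
    exact ⟨M, fun x hx => by_contra fun c => h c hx⟩
  have jmp : ∀ p q, Tn C R p q → ind (Ψ (H.hz p q) = -1) + ind (Ψ (H.hz q p) = -1) =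
      ∑ e, (ind ((s e, t e) = (p, q)) + ind ((s e, t e) = (q, p))) := fun p q h => by
    have no : ∀ k, R k ≤ dist (pt C R p q) (C k) := fun k => not_lt.1 fun c => by
      have m2 := H.pt_swap p q ▸ H.pt_mem h.symm
      have aux : ∀ j, k ≠ j → pt C R p q ∉ closedBall (C j) (R j) := fun j hj m => by
        linarith [H.sep k j hj, dist_triangle_left (C k) (C j) (pt C R p q), mem_closedBall.1 m]
      by_cases e : k = p
      · exact aux q (e ▸ h.1) m2
      · exact aux p e (H.pt_mem h)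
    have nc : ∀ k, pt C R p q ≠ C k := fun k e => by simpa [e, (H.pos k).not_ge] using no k
    apply sg_inj
    rw [sg_add, sg_ind (sq _ (H.hz_mem h)), sg_ind (sq _ (H.hz_mem h.symm)), sg_sum,
      ← mul_one (∏ e, _), ← pr _ nc]
    have t1 : Tendsto (fun b : ℝ => ∏ e, (psi C (s e) (t e) (pt C R p q + b * I * dr C R p q) *
        psi C (s e) (t e) (pt C R p q + b * I * -dr C R p q))) (𝓝[>] 0) (𝓝 (∏ e,
        sg (ind ((s e, t e) = (p, q)) + ind ((s e, t e) = (q, p))) *
          rho C (s e) (t e) (pt C R p q))) := tendsto_finsetProd _ fun e _ => by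
      by_cases e1 : (s e, t e) = (p, q)
      · rw [ind_pos e1, ind_neg fun c => h.1 (Prod.ext_iff.1 (e1.symm.trans c)).1]
        obtain ⟨rfl, rfl⟩ := Prod.ext_iff.1 e1
        simpa [sg] using H.psi_line h
      by_cases e2 : (s e, t e) = (q, p)
      · rw [ind_pos e2, ind_neg e1]
        obtain ⟨rfl, rfl⟩ := Prod.ext_iff.1 e2
        rw [H.pt_swap (s e) (t e), dr_swap (s e) (t e), neg_neg]
        simpa [sg] using (H.psi_line h.symm).congr fun b => mul_comm _ _
      have sl := H.slit (hT e) (no _) (no _) fun c => by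
        have m := H.pt_swap p q ▸ H.pt_mem h.symm
        have a1 := H.two h.1 (H.pt_mem h) m (c ▸ H.pt_mem (hT e))
        have a2 := H.two h.1 (H.pt_mem h) m (c ▸ H.pt_swap (s e) (t e) ▸ H.pt_mem (hT e).symm)
        have := (hT e).1
        rw [Prod.ext_iff] at e1 e2
        grind
      rw [ind_neg e1, ind_neg e2, ← psi_sq sl]
      simpa [sg] using ((psi_cont (nc _) sl).tendsto.comp (line_tendsto _ _)).mul
        ((psi_cont (nc _) sl).tendsto.comp (line_tendsto _ (-dr C R p q)))
    rw [Finset.prod_mul_distrib] at t1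
    refine tendsto_nhds_unique (tendsto_const_nhds.congr' ?_) t1
    filter_upwards [H.gp_line h, H.gp_line h.symm] with b h1 h2
    rw [H.pt_swap, dr_swap] at h2
    rw [Finset.prod_mul_distrib, ← cst _ (H.hz_mem h) _ h1, ← cst _ (H.hz_mem h.symm) _ h2]
  set F : Finset ι := (H.fin 0 M).toFinset ∪ Finset.univ.image s with hF
  have inF : ∀ d : ι × ι, Tn C R d.1 d.2 → Ψ (H.hz d.1 d.2) = -1 → d ∈ F ×ˢ F := fun d h e => by
    have m : pt C R d.1 d.2 ∈ closedBall (0 : ℂ) M := closure_minimal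
      (fun x hx => hM x ((cst _ (H.hz_mem h) x hx).trans e)) isClosed_closedBall (H.pt_cl h)
    have aux : ∀ k, pt C R d.1 d.2 ∈ closedBall (C k) (R k) → k ∈ F := fun k hk =>
      Finset.mem_union_left _ (by
        simpa using (dist_triangle_left _ _ _).trans (add_le_add hk m))
    exact Finset.mem_product.2 ⟨aux _ (H.pt_mem h), aux _ (H.pt_swap _ _ ▸ H.pt_mem h.symm)⟩
  have S1 : ∑ d ∈ F ×ˢ F, ind (Tn C R d.1 d.2 ∧ Ψ (H.hz d.1 d.2) = -1) * ω d.1 d.2 = 0 := by
    rw [← Finset.sum_fiberwise_of_maps_to (g := fun d : ι × ι => H.gp d.1 d.2)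
      (t := (F ×ˢ F).image fun d : ι × ι => H.gp d.1 d.2) fun d hd => Finset.mem_image_of_mem _ hd]
    refine Finset.sum_eq_zero fun G _ => ?_
    by_cases ex : ∃ d : ι × ι, (Tn C R d.1 d.2 ∧ Ψ (H.hz d.1 d.2) = -1) ∧ H.gp d.1 d.2 = G
    · obtain ⟨d, ⟨d1, d2⟩, rfl⟩ := ex
      have tr : ∀ d' : ι × ι, Tn C R d'.1 d'.2 → H.gp d'.1 d'.2 = H.gp d.1 d.2 →
          Ψ (H.hz d'.1 d'.2) = -1 := fun d' h e =>
        (cst _ (H.hz_mem d1) _ (e ▸ mem_connectedComponentIn (H.hz_mem h) :
          _ ∈ H.gp d.1 d.2)).trans d2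
      rw [← H.gapsum ω hs ht (H.hz_mem d1) (F ×ˢ F) fun d' h e => inF d' h (tr d' h e),
        Finset.sum_filter]
      refine Finset.sum_congr rfl fun d' _ => ?_
      split_ifs with e
      · congr 2
        exact propext ⟨fun x => ⟨x.1, e⟩, fun x => ⟨x.1, tr d' x.1 e⟩⟩
      · rw [ind_neg fun x => e x.2, zero_mul]
    · exact Finset.sum_eq_zero fun d hd => by
        rw [ind_neg fun x => ex ⟨d, x, (Finset.mem_filter.1 hd).2⟩, zero_mul]
  have S2 : ∑ d ∈ F ×ˢ F, (∑ e, ind ((s e, t e) = d)) * ω d.1 d.2 = ∑ e, ω (s e) (t e) := by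
    simp only [Finset.sum_mul]
    rw [Finset.sum_comm]
    refine Finset.sum_congr rfl fun e _ => ?_
    rw [Finset.sum_eq_single (s e, t e) (fun d _ h => by rw [ind_neg h.symm, zero_mul])
      (fun h => absurd (Finset.mem_product.2 ⟨by simp [hF], by simp [hF, hσ]⟩) h), ind_pos rfl,
      one_mul]
  suffices S3 : ∑ d ∈ F ×ˢ F, (ind (Tn C R d.1 d.2 ∧ Ψ (H.hz d.1 d.2) = -1) * ω d.1 d.2 +
      (∑ e, ind ((s e, t e) = d)) * ω d.1 d.2) = 0 by
    rwa [Finset.sum_add_distrib, S1, S2, zero_add] at S3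
  have z : ∀ d : ι × ι, ¬ Tn C R d.1 d.2 → ∑ e, ind ((s e, t e) = d) = 0 := fun d h =>
    Finset.sum_eq_zero fun e _ => ind_neg fun c => h (c ▸ hT e)
  refine Finset.sum_involution (fun d _ => d.swap) (fun d _ => ?_) (fun d _ h e => h ?_)
    (fun d hd => by simpa [and_comm] using hd) fun _ _ => rfl
  · by_cases h : Tn C R d.1 d.2
    · have := jmp _ _ h
      rw [Finset.sum_add_distrib] at this
      rw [show (d.2, d.1) = d.swap from rfl, show (d.1, d.2) = d from rfl] at this
      simp only [Prod.fst_swap, Prod.snd_swap, h, h.symm, true_and, hs d.2 d.1]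
      have two : (2 : ZMod 2) = 0 := rfl
      linear_combination ω d.1 d.2 * this +
        (∑ e, ind ((s e, t e) = d) + ∑ e, ind ((s e, t e) = d.swap)) * ω d.1 d.2 * two
    · rw [z d h, z d.swap fun c => h c.symm, ind_neg fun c => h c.1, ind_neg fun c => h c.1.symm]
      simp
  · have h : ¬ Tn C R d.1 d.2 := fun c => c.1 (congrArg Prod.snd e)
    rw [z d h, ind_neg fun c => h c.1]
    simp

end Pool.Agent.MP_3b6db3_gt.H5U
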